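import Pool.Agent.J6H10.PR.Fus

/-!
# Partition regular families: the Ramsey theorem for closed families of sequences
-/

set_option autoImplicit false

namespace Pool.Agent.J6H10.PR

open Filter Topology Pool.Agent.H752R3.MT

attribute [local instance] gSemigroup Ultrafilter.mul Ultrafilter.semigroup

variable {G : Type} [AddCommMonoid G]

/-- the first `n` terms -/
def pre (Y : ℕ → G) (n : ℕ) : List G := (List.range n).map Y

omit [AddCommMonoid G] in
theorem pre_length (Y : ℕ → G) (n : ℕ) : (pre Y n).length = n := by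
  unfold pre; simp

omit [AddCommMonoid G] in
theorem pre_succ (Y : ℕ → G) (n : ℕ) : pre Y (n + 1) = pre Y n ++ [Y n] := by
  unfold pre; simp [List.range_succ]

omit [AddCommMonoid G] in
theorem pre_take (Y : ℕ → G) {m n : ℕ} (h : m ≤ n) : (pre Y n).take m = pre Y m := by
  unfold pre
  rw [← List.map_take]
  congr 1
  rw [List.take_range]
  congr 1
  omega

omit [AddCommMonoid G] in
theorem pre_congr {Y Z : ℕ → G} {n : ℕ} (h : pre Z n = pre Y n) : ∀ i < n, Z i = Y i := by
  intro i hi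
  have h1 : (pre Z n)[i]? = (pre Y n)[i]? := by rw [h]
  unfold pre at h1
  simpa [hi] using h1

/-- every sequence in `T 0` which starts with `s` is outside the family -/
def Bad (T : ℕ → Set G) (P : (ℕ → G) → Prop) (s : List G) : Prop :=
  ∀ Z, (∀ i, Z i ∈ T 0) → pre Z s.length = s → ¬ P Z

/-- some strategy leads from `s` to `Bad` -/
def Doom (T : ℕ → Set G) (q : Ultrafilter G) (P : (ℕ → G) → Prop) (s : List G) : Prop :=
  ∃ 𝔸 : List G → Set G, (∀ t, 𝔸 t ∈ q) ∧ ∀ Y : ℕ → G, (∀ i, Y i ∈ T 0) → pre Y s.length = s →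
    (∀ i, s.length ≤ i → Y i ∈ 𝔸 (pre Y i)) → ∃ i, Bad T P (pre Y i)

omit [AddCommMonoid G] in
theorem doom_of_bad {T : ℕ → Set G} (q : Ultrafilter G) {P : (ℕ → G) → Prop} {s : List G}
    (h : Bad T P s) : Doom T q P s :=
  ⟨fun _ => Set.univ, fun _ => univ_mem, fun Y _ hY _ => ⟨s.length, by rw [hY]; exact h⟩⟩

omit [AddCommMonoid G] in
open Classical in
theorem doom_step {T : ℕ → Set G} (q : Ultrafilter G) {P : (ℕ → G) → Prop} {s : List G}
    (h : {x | Doom T q P (s ++ [x])} ∈ q) : Doom T q P s := by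
  -- strategies
  obtain ⟨S, hS⟩ : ∃ S : List G → List G → Set G, (∀ u t, S u t ∈ q) ∧ ∀ u, Doom T q P u →
      ∀ Y : ℕ → G, (∀ i, Y i ∈ T 0) → pre Y u.length = u →
        (∀ i, u.length ≤ i → Y i ∈ S u (pre Y i)) → ∃ i, Bad T P (pre Y i) := by
    refine ⟨fun u => if hu : Doom T q P u then hu.choose else fun _ => Set.univ, fun u t => ?_,
      fun u hu => ?_⟩
    · beta_reduce
      split_ifs with hu
      · exact hu.choose_spec.1 t
      · exact univ_mem
    · beta_reduce
      rw [dif_pos hu]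
      exact hu.choose_spec.2
  refine ⟨fun t => if t.length = s.length then {x | Doom T q P (s ++ [x])} else
    S (t.take (s.length + 1)) t, fun t => ?_, fun Y hY hs hr => ?_⟩
  · beta_reduce
    split_ifs
    · exact h
    · exact hS.1 _ _
  · beta_reduce at hr
    have h1 := hr s.length le_rfl
    rw [if_pos (by rw [pre_length])] at h1
    have h1' : Doom T q P (s ++ [Y s.length]) := h1
    have h2 : s ++ [Y s.length] = pre Y (s.length + 1) := by rw [pre_succ, hs]
    rw [h2] at h1'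
    refine hS.2 _ h1' Y hY (by rw [pre_length]) fun i hi => ?_
    rw [pre_length] at hi
    have h3 := hr i (by omega)
    rw [if_neg (by rw [pre_length]; omega), pre_take Y hi] at h3
    exact h3

/-- **The Ramsey theorem for closed families and partition regular families of finite sets.** -/
theorem closed_sets {T : ℕ → Set G} (hT : Tails T) (𝓒 : ℕ → Set (Finset G))
    (h𝓒 : ∀ i, Reg T (𝓒 i)) (P : ℕ → (ℕ → G) → Prop)
    (hcl : ∀ (j : ℕ) (Z : ℕ → G), (∀ i, Z i ∈ T 0) → ¬ P j Z →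
      ∃ m, ∀ Z', (∀ i, Z' i ∈ T 0) → (∀ i < m, Z' i = Z i) → ¬ P j Z')
    (hex : ∀ (j : ℕ) (X : ℕ → G), (∀ i, X i ∈ T i) → (∀ F : Finset ℕ, F.Nonempty → (∑ i ∈ F, X i) ∈ T 0) →
      ∃ C : ℕ → Finset ℕ, Blk C ∧ P j (fun l => ∑ i ∈ C l, X i)) :
    ∃ S : ℕ → Finset G, (∀ i, S i ∈ 𝓒 i) ∧ (∀ i, ∀ s ∈ S i, s ∈ T i) ∧
      ∀ (j : ℕ) (C : ℕ → Finset ℕ) (x : ℕ → G), Blk C → (∀ i ∈ C 0, j ≤ i) → (∀ i, x i ∈ S i) →
        P j (fun l => ∑ i ∈ C l, x i) := by
  classical
  obtain ⟨q, hok, hq, hreg⟩ := exists_q hT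
  -- finite sums in the first tail
  have hT0 : ∀ (S : ℕ → Finset G), (∀ (j : ℕ) (C : ℕ → Finset ℕ) (x : ℕ → G), Blk C →
      (∀ i ∈ C 0, j ≤ i) → (∀ i, x i ∈ S i) → ∀ l, (∑ i ∈ C l, x i) ∈ T 0) →
      ∀ x : ℕ → G, (∀ i, x i ∈ S i) → ∀ F : Finset ℕ, F.Nonempty → (∑ i ∈ F, x i) ∈ T 0 := by
    intro S hS x hx F hF
    have hB : Blk (fun l => if l = 0 then F else {F.sup id + l}) := by
      refine ⟨fun l => ?_, fun l a ha b hb => ?_⟩
      · beta_reduce
        split_ifs
        · exact hF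
        · exact Finset.singleton_nonempty _
      · beta_reduce at ha hb
        rw [if_neg (Nat.succ_ne_zero l), Finset.mem_singleton] at hb
        split_ifs at ha with h
        · have := Finset.le_sup (f := id) ha
          simp only [id] at this
          omega
        · rw [Finset.mem_singleton] at ha
          omega
    have h1 := hS 0 _ x hB (fun i _ => Nat.zero_le i) hx 0
    simpa using h1
  have hnd : ∀ j, ¬ Doom T q (P j) [] := by
    intro j hd
    obtain ⟨𝔸, hA, hD⟩ := hd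
    obtain ⟨S, hS1, hS2, hS3⟩ := fusion hok hq (fun _ => {S | S.Nonempty}) (fun _ A hA => by
      obtain ⟨a, ha⟩ := Ultrafilter.nonempty_of_mem hA
      exact ⟨{a}, Finset.singleton_nonempty a, fun s hs => by
        rw [Finset.mem_singleton] at hs; rw [hs]; exact ha⟩) (fun _ s => 𝔸 s ∩ T 0)
      (fun _ s => inter_mem (hA s) (hok 0))
    have hS1' : ∀ i, ∃ x, x ∈ S i := fun i => hS1 i
    choose X hX using hS1'
    have hsum := hT0 S (fun j C x hC hj hx l => (hS3 j C x hC hj hx l).2) X hX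
    obtain ⟨C, hC, hP⟩ := hex j X (fun i => hS2 i _ (hX i)) hsum
    have hY : ∀ l, (∑ i ∈ C l, X i) ∈ T 0 := fun l => hsum _ (hC.1 l)
    obtain ⟨i, hi⟩ := hD (fun l => ∑ i ∈ C l, X i) hY rfl
      (fun i _ => (hS3 0 C X hC (fun i _ => Nat.zero_le i) hX i).1)
    exact hi _ hY (by rw [pre_length]) hP
  obtain ⟨S, hS1, hS2, hS3⟩ := fusion hok hq 𝓒 (fun i A hA => hreg _ (h𝓒 i) A hA)
    (fun j s => (if Doom T q (P j) s then Set.univ else {x | ¬ Doom T q (P j) (s ++ [x])}) ∩ T 0)
    (fun j s => by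
      refine inter_mem ?_ (hok 0)
      split_ifs with hs
      · exact univ_mem
      · by_contra hcon
        have hcon' := Ultrafilter.compl_mem_iff_notMem.2 hcon
        exact hs (doom_step q (mem_of_superset hcon' fun x hx => not_not.1 hx)))
  refine ⟨S, hS1, hS2, fun j C x hC hj hx => ?_⟩
  set Y : ℕ → G := fun l => ∑ i ∈ C l, x i with hYdef
  have hY : ∀ l, Y l ∈ T 0 := fun l => (hS3 j C x hC hj hx l).2
  have hgood : ∀ l, ¬ Doom T q (P j) (pre Y l) := by
    intro l
    induction l with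
    | zero => exact hnd j
    | succ l ih =>
      have h1 : Y l ∈ (if Doom T q (P j) (pre Y l) then Set.univ else
          {x | ¬ Doom T q (P j) (pre Y l ++ [x])} : Set G) := (hS3 j C x hC hj hx l).1
      rw [if_neg ih] at h1
      rw [pre_succ]
      exact h1
  by_contra hcon
  obtain ⟨m, hm⟩ := hcl j Y hY hcon
  refine hgood m (doom_of_bad q ?_)
  intro Z hZ hZY
  rw [pre_length] at hZY
  exact hm Z hZ (pre_congr hZY)

end Pool.Agent.J6H10.PR
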