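import Pool.Agent.J6H10.PR.Ult
import Pool.Agent.H752R3.MT

/-!
# Partition regular families: fusion
-/

set_option autoImplicit false

namespace Pool.Agent.J6H10.PR

open Filter Topology Pool.Agent.H752R3.MT

attribute [local instance] gSemigroup Ultrafilter.mul Ultrafilter.semigroup

variable {G : Type} [AddCommMonoid G]

/-- the elements which can be continued inside `Q` -/
def star (q : Ultrafilter G) (Q : Set G) : Set G := {x | x ∈ Q ∧ {y | x + y ∈ Q} ∈ q}

theorem star_mono (q : Ultrafilter G) {Q Q' : Set G} (h : Q ⊆ Q') : star q Q ⊆ star q Q' :=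
  fun _ hx => ⟨h hx.1, mem_of_superset hx.2 fun _ hy => h hy⟩

theorem star_mem {q : Ultrafilter G} (hq : q * q = q) {Q : Set G} (hQ : Q ∈ q) :
    star q Q ∈ q := by
  have h1 : Q ∈ q * q := by rw [hq]; exact hQ
  rw [mem_mul] at h1
  exact inter_mem hQ h1

theorem star_star {q : Ultrafilter G} (hq : q * q = q) {Q : Set G} {x : G}
    (hx : x ∈ star q Q) : {y | x + y ∈ star q Q} ∈ q := by
  have h1 := star_mem hq hx.2
  refine mem_of_superset h1 fun y hy => ?_
  refine ⟨hy.1, ?_⟩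
  have h2 := hy.2
  refine mem_of_superset h2 fun z hz => ?_
  have h3 : x + (y + z) ∈ Q := hz
  show x + y + z ∈ Q
  rw [add_assoc]
  exact h3

theorem fin_states (n : ℕ) (B : Finset G) :
    {s : List G | s.length ≤ n ∧ ∀ y ∈ s, y ∈ B}.Finite := by
  have h1 := (List.finite_length_le {y : G // y ∈ B} n).image (List.map Subtype.val)
  refine h1.subset ?_
  rintro s ⟨hs1, hs2⟩
  refine ⟨s.attach.map fun y => ⟨y.1, hs2 y.1 y.2⟩, ?_, ?_⟩
  · simpa using hs1
  · rw [List.map_map]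
    exact List.attach_map_subtype_val s

/-- the sets needed at stage `n` -/
def need (𝔸 : ℕ → List G → Set G) (n : ℕ) (B : Finset G) : Set G :=
  {x | ∀ j ≤ n, ∀ s : List G, s.length ≤ n → (∀ y ∈ s, y ∈ B) → x ∈ 𝔸 j s}

theorem need_mem {q : Ultrafilter G} {𝔸 : ℕ → List G → Set G} (hA : ∀ j s, 𝔸 j s ∈ q) (n : ℕ)
    (B : Finset G) : need 𝔸 n B ∈ q := by
  have h1 : (⋂ j ∈ Set.Iic n, ⋂ s ∈ {s : List G | s.length ≤ n ∧ ∀ y ∈ s, y ∈ B}, 𝔸 j s) ∈ q := by
    rw [← Ultrafilter.mem_coe, Filter.biInter_mem (Set.finite_Iic n)]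
    intro j _
    rw [Filter.biInter_mem (fin_states n B)]
    exact fun s _ => hA j s
  refine mem_of_superset h1 fun x hx j hj s hs1 hs2 => ?_
  exact Set.mem_iInter₂.1 (Set.mem_iInter₂.1 hx j hj) s ⟨hs1, hs2⟩

theorem fusion {T : ℕ → Set G} {q : Ultrafilter G} (hok : Ok T q) (hq : q * q = q)
    (𝓒 : ℕ → Set (Finset G)) (h𝓒 : ∀ i, ∀ A ∈ q, ∃ S ∈ 𝓒 i, ∀ s ∈ S, s ∈ A)
    (𝔸 : ℕ → List G → Set G) (hA : ∀ j s, 𝔸 j s ∈ q) :
    ∃ S : ℕ → Finset G, (∀ i, S i ∈ 𝓒 i) ∧ (∀ i, ∀ s ∈ S i, s ∈ T i) ∧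
      ∀ (j : ℕ) (C : ℕ → Finset ℕ) (x : ℕ → G), Blk C → (∀ i ∈ C 0, j ≤ i) → (∀ i, x i ∈ S i) →
        ∀ l, (∑ i ∈ C l, x i) ∈ 𝔸 j ((List.range l).map fun l' => ∑ i ∈ C l', x i) := by
  classical
  -- the recursion
  let σ := Finset G × {Q : Set G // Q ∈ q}
  have hpick : ∀ (n : ℕ) (st : σ), ∃ S ∈ 𝓒 n, ∀ s ∈ S, s ∈ star q st.2.1 ∩ T n := fun n st =>
    h𝓒 n _ (inter_mem (star_mem hq st.2.2) (hok n))
  choose pk hpk1 hpk2 using hpick
  let B' : ℕ → σ → Finset G := fun n st => st.1 ∪ (pk n st).biUnion fun s => st.1.image fun b => s + b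
  have hQ' : ∀ (n : ℕ) (st : σ), st.2.1 ∩ {y | ∀ s ∈ pk n st, s + y ∈ star q st.2.1} ∩
      need 𝔸 (n + 1) (B' n st) ∈ q := by
    intro n st
    refine inter_mem (inter_mem st.2.2 ?_) (need_mem hA _ _)
    have h1 : (⋂ s ∈ (pk n st : Set G), {y | s + y ∈ star q st.2.1}) ∈ q := by
      rw [← Ultrafilter.mem_coe, Filter.biInter_mem (pk n st).finite_toSet]
      exact fun s hs => star_star hq (hpk2 n st s hs).1
    exact mem_of_superset h1 fun y hy s hs => Set.mem_iInter₂.1 hy s hs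
  let nx : ℕ → σ → σ := fun n st => (B' n st, ⟨_, hQ' n st⟩)
  let f : ℕ → σ := fun n => Nat.rec (motive := fun _ => σ) ({0}, ⟨need 𝔸 0 {0}, need_mem hA 0 {0}⟩) nx n
  have hfs : ∀ n, f (n + 1) = nx n (f n) := fun n => rfl
  obtain ⟨S, hS⟩ : ∃ S : ℕ → Finset G, S = fun n => pk n (f n) := ⟨_, rfl⟩
  obtain ⟨Q, hQdef⟩ : ∃ Q : ℕ → Set G, Q = fun n => (f n).2.1 := ⟨_, rfl⟩
  obtain ⟨B, hB⟩ : ∃ B : ℕ → Finset G, B = fun n => (f n).1 := ⟨_, rfl⟩
  have hQs : ∀ n, Q (n + 1) = Q n ∩ {y | ∀ s ∈ S n, s + y ∈ star q (Q n)} ∩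
      need 𝔸 (n + 1) (B (n + 1)) := by
    intro n
    rw [hQdef, hS, hB]
  have hBs : ∀ n, B (n + 1) = B n ∪ (S n).biUnion fun s => (B n).image fun b => s + b := by
    intro n
    rw [hS, hB]
  have hS1 : ∀ n s, s ∈ S n → s ∈ star q (Q n) := by
    intro n s hs
    rw [hS] at hs
    rw [hQdef]
    exact (hpk2 n (f n) s hs).1
  have hQmono : ∀ m n, m ≤ n → Q n ⊆ Q m := by
    intro m n hmn
    induction n, hmn using Nat.le_induction with
    | base => exact subset_rfl
    | succ n _ ih =>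
      rw [hQs]
      exact fun x hx => ih hx.1.1
  have hBmono : ∀ m n, m ≤ n → B m ⊆ B n := by
    intro m n hmn
    induction n, hmn using Nat.le_induction with
    | base => exact subset_rfl
    | succ n _ ih =>
      rw [hBs]
      exact fun x hx => Finset.mem_union_left _ (ih hx)
  have hB0 : (0 : G) ∈ B 0 := by
    rw [hB]
    exact Finset.mem_singleton_self _
  have hneed : ∀ n, Q n ⊆ need 𝔸 n (B n) := by
    intro n
    rcases n with _ | n
    · rw [hQdef, hB]
      exact subset_rfl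
    · rw [hQs]
      exact fun x hx => hx.2
  -- sums
  have hprod : ∀ (x : ℕ → G), (∀ i, x i ∈ S i) → ∀ F : Finset ℕ, F.Nonempty → ∀ m,
      (∀ i ∈ F, m ≤ i) → (∑ i ∈ F, x i) ∈ star q (Q m) := by
    intro x hx F
    induction F using Finset.induction_on_min with
    | empty => exact fun h => absurd h Finset.not_nonempty_empty
    | insert a s has ih =>
      intro _ m hm
      have hns : a ∉ s := fun h => absurd (has a h) (lt_irrefl a)
      rw [Finset.sum_insert hns]
      apply star_mono q (hQmono m a (hm a (Finset.mem_insert_self a s)))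
      by_cases hs : s.Nonempty
      · have h1 := ih hs (a + 1) (fun i hi => has i hi)
        have h2 := h1.1
        rw [hQs] at h2
        exact h2.1.2 (x a) (hx a)
      · rw [Finset.not_nonempty_iff_eq_empty] at hs
        rw [hs, Finset.sum_empty, add_zero]
        exact hS1 a (x a) (hx a)
  have hBsum : ∀ (x : ℕ → G), (∀ i, x i ∈ S i) → ∀ F : Finset ℕ, ∀ m, (∀ i ∈ F, i < m) →
      (∑ i ∈ F, x i) ∈ B m := by
    intro x hx F
    induction F using Finset.induction_on_max with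
    | empty => exact fun m _ => by rw [Finset.sum_empty]; exact hBmono 0 m (Nat.zero_le m) hB0
    | insert a s has ih =>
      intro m hm
      have hns : a ∉ s := fun h => absurd (has a h) (lt_irrefl a)
      rw [Finset.sum_insert hns]
      apply hBmono (a + 1) m (hm a (Finset.mem_insert_self a s))
      rw [hBs]
      exact Finset.mem_union_right _ (Finset.mem_biUnion.2 ⟨x a, hx a,
        Finset.mem_image_of_mem _ (ih a fun i hi => has i hi)⟩)
  refine ⟨S, fun i => ?_, fun i s hs => ?_, fun j C x hC hj hx l => ?_⟩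
  · rw [hS]
    exact hpk1 i (f i)
  · rw [hS] at hs
    exact (hpk2 i (f i) s hs).2
  · obtain ⟨m, hm1, hm2⟩ : ∃ m, m ∈ C l ∧ ∀ i ∈ C l, m ≤ i :=
      ⟨(C l).min' (hC.1 l), Finset.min'_mem _ _, fun i hi => Finset.min'_le _ _ hi⟩
    have h1 : (∑ i ∈ C l, x i) ∈ Q m := (hprod x hx (C l) (hC.1 l) m hm2).1
    have hlt : ∀ l' < l, ∀ i ∈ C l', i < m := fun l' hl' i hi => hC.lt hl' i hi m hm1
    have hjm : j ≤ m := by
      rcases Nat.eq_zero_or_pos l with h0 | h0
      · rw [h0] at hm1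
        exact hj m hm1
      · obtain ⟨i, hi⟩ := hC.1 0
        have := hj i hi
        have := hlt 0 h0 i hi
        omega
    have hge : ∀ l, ∀ i ∈ C l, l ≤ i := by
      intro l
      induction l with
      | zero => exact fun i _ => Nat.zero_le i
      | succ l ih =>
        intro i hi
        obtain ⟨i', hi'⟩ := hC.1 l
        have := ih i' hi'
        have := hC.2 l i' hi' i hi
        omega
    refine hneed m h1 j hjm _ ?_ ?_
    · rw [List.length_map, List.length_range]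
      exact hge l m hm1
    · intro y hy
      obtain ⟨l', hl', rfl⟩ := List.mem_map.1 hy
      rw [List.mem_range] at hl'
      exact hBsum x hx (C l') m (hlt l' hl')

end Pool.Agent.J6H10.PR
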