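import Pool.Agent.J6H10.PR.Closed
import Pool.Agent.W68.GapMain

/-!
# Consecutive prime gaps attached to partition regular families
-/

set_option autoImplicit false

namespace Pool.Agent.J6H10.PR

open Pool.Agent.H752R3.MT Pool.Agent.W68.Mil Pool.Agent.W68.Her

variable {G : Type} [AddCommMonoid G]

/-- positions -/
def posG (φ : G →+ ℤ) (Z : ℕ → G) (m : ℕ) : ℤ := ∑ l ∈ Finset.range m, φ (Z l)

theorem posG_succ (φ : G →+ ℤ) (Z : ℕ → G) (m : ℕ) :
    posG φ Z (m + 1) = posG φ Z m + φ (Z m) := by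
  unfold posG
  rw [Finset.sum_range_succ]

theorem posG_strictMono {φ : G →+ ℤ} {Z : ℕ → G} (hZ : ∀ i, 1 ≤ φ (Z i)) :
    StrictMono (posG φ Z) := strictMono_nat_of_lt_succ fun m => by
  rw [posG_succ]
  have := hZ m
  linarith

theorem le_posG {φ : G →+ ℤ} {Z : ℕ → G} (hZ : ∀ i, 1 ≤ φ (Z i)) (m : ℕ) :
    (m : ℤ) ≤ posG φ Z m := by
  induction m with
  | zero => simp [posG]
  | succ m ih =>
    rw [posG_succ]
    have := hZ m
    push_cast
    linarith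

/-- the exact patterns attached to sequences -/
def goodG (φ : G →+ ℤ) (q : ℕ) (r : ℤ) (Z : ℕ → G) : Prop :=
  ExF (Set.range fun m => ((q : ℤ), r + posG φ Z m))

theorem goodG_closed {T : Set G} {φ : G →+ ℤ} (hφ : ∀ x ∈ T, 1 ≤ φ x) (q : ℕ) (r : ℤ)
    (Z : ℕ → G) (hZ : ∀ i, Z i ∈ T) (hg : ¬ goodG φ q r Z) :
    ∃ m, ∀ Z' : ℕ → G, (∀ i, Z' i ∈ T) → (∀ i < m, Z' i = Z i) → ¬ goodG φ q r Z' := by
  unfold goodG ExF at hg
  push Not at hg
  obtain ⟨S, hT1, hT2⟩ := hg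
  obtain ⟨M, hM⟩ : ∃ M : ℕ, ∀ f ∈ S, f.2 - r < M := by
    refine ⟨(S.sup fun f => (f.2 - r).toNat) + 1, fun f hf => ?_⟩
    have h1 : (f.2 - r).toNat ≤ S.sup fun f => (f.2 - r).toNat :=
      Finset.le_sup (f := fun f : ℤ × ℤ => (f.2 - r).toNat) hf
    have h2 := Int.self_le_toNat (f.2 - r)
    have h3 : ((f.2 - r).toNat : ℤ) ≤ ((S.sup fun f => (f.2 - r).toNat : ℕ) : ℤ) := by
      exact_mod_cast h1
    push_cast
    linarith
  refine ⟨M, fun Z' hZ' hZZ hg' => ?_⟩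
  have hp : ∀ m ≤ M, posG φ Z' m = posG φ Z m := by
    intro m hm
    unfold posG
    refine Finset.sum_congr rfl fun l hl => ?_
    rw [hZZ l (by have := Finset.mem_range.1 hl; omega)]
  have hZ1 : ∀ i, 1 ≤ φ (Z i) := fun i => hφ _ (hZ i)
  have hZ1' : ∀ i, 1 ≤ φ (Z' i) := fun i => hφ _ (hZ' i)
  refine (congr_inf (fun f hf => ?_) (hg' S hT1)) hT2
  constructor
  · rintro ⟨m, rfl⟩
    refine ⟨m, ?_⟩
    have h1 := hM _ hf
    simp only at h1 ⊢
    have h2 := le_posG hZ1' m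
    have h3 : m ≤ M := by
      have : (m : ℤ) < M := by linarith
      exact_mod_cast this.le
    rw [hp m h3]
  · rintro ⟨m, rfl⟩
    refine ⟨m, ?_⟩
    have h1 := hM _ hf
    simp only at h1 ⊢
    have h2 := le_posG hZ1 m
    have h3 : m ≤ M := by
      have : (m : ℤ) < M := by linarith
      exact_mod_cast this.le
    rw [hp m h3]

theorem goodG_exists {φ : G →+ ℤ} (q : ℕ) (hq : 1 ≤ q) (r : ℤ)
    (hr : IsCoprime r (q : ℤ)) (X : ℕ → G) (hX : ∀ i, 1 ≤ φ (X i)) :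
    ∃ C : ℕ → Finset ℕ, Blk C ∧ goodG φ q r (fun l => ∑ i ∈ C l, X i) := by
  classical
  set e : ℕ → ℕ := fun a => (φ (X a)).toNat with he
  have he0 : ∀ a, ((e a : ℕ) : ℤ) = φ (X a) := fun a =>
    Int.toNat_of_nonneg (by have := hX a; linarith)
  have he1 : ∀ a, 1 ≤ e a := by
    intro a
    have h1 := hX a
    rw [← he0] at h1
    exact_mod_cast h1
  have hblk : Blk (fun i => ({i} : Finset ℕ)) := by
    refine ⟨fun i => Finset.singleton_nonempty i, fun i x hx y hy => ?_⟩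
    rw [Finset.mem_singleton] at hx hy
    omega
  obtain ⟨C, hC, -, hg⟩ := Pool.Agent.W68.Gap.good_exists he1 q hq r hr _ hblk
  refine ⟨C, hC, ?_⟩
  have hpos : ∀ m, posG φ (fun l => ∑ i ∈ C l, X i) m = Pool.Agent.W68.Gap.pos e C m := by
    intro m
    unfold posG Pool.Agent.W68.Gap.pos
    refine Finset.sum_congr rfl fun l _ => ?_
    rw [map_sum]
    exact Finset.sum_congr rfl fun a _ => (he0 a).symm
  unfold goodG
  simp only [hpos]
  exact hg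

/-- **Consecutive prime gaps and partition regular families.** -/
theorem main_gapsG {T : ℕ → Set G} (hT : Tails T) (𝓒 : ℕ → Set (Finset G))
    (h𝓒 : ∀ i, Reg T (𝓒 i)) (φ : ℕ → G →+ ℤ) (hφ : ∀ j, ∀ x ∈ T 0, 1 ≤ φ j x) (q : ℕ → ℕ)
    (hq : ∀ j, 1 ≤ q j) (r : ℕ → ℤ) (hr : ∀ j, IsCoprime (r j) (q j : ℤ)) :
    ∃ S : ℕ → Finset G, (∀ i, S i ∈ 𝓒 i) ∧ (∀ i, ∀ s ∈ S i, s ∈ T i) ∧
      ∀ (j k : ℕ) (F : ℕ → Finset ℕ) (x : ℕ → G), (∀ i, x i ∈ S i) →
        (∀ l < k, (F l).Nonempty) → (∀ l < k, ∀ i ∈ F l, j ≤ i) →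
        (∀ l, l + 1 < k → ∀ i ∈ F l, ∀ i' ∈ F (l + 1), i < i') →
        ∀ R : ℕ, {n : ℕ | (n : ℤ) ≡ r j [ZMOD q j] ∧
          ∀ y : ℤ, |y| ≤ R → (Nat.Prime ((n : ℤ) + y).toNat ↔
            ∃ m ≤ k, y = ∑ l ∈ Finset.range m, ∑ i ∈ F l, φ j (x i))}.Infinite := by
  classical
  obtain ⟨S, hS1, hS2, hg⟩ := closed_sets hT 𝓒 h𝓒 (fun j => goodG (φ j) (q j) (r j))
    (fun j Z hZ hg => goodG_closed (hφ j) (q j) (r j) Z hZ hg)
    (fun j X hX hXs => goodG_exists (q j) (hq j) (r j) (hr j) X (fun i => hφ j _ (by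
      have := hXs {i} (Finset.singleton_nonempty i)
      rwa [Finset.sum_singleton] at this)))
  refine ⟨S, hS1, hS2, fun j k F x hx hF1 hF2 hF3 R => ?_⟩
  obtain ⟨G', hG1, hG2, hG3, hG4⟩ := Pool.Agent.W68.Gap.extend j k F hF1 hF2 hF3 R
  have hx0 : ∀ i, x i ∈ T 0 := fun i => hT.anti (Nat.zero_le i) (hS2 i _ (hx i))
  have hx1 : ∀ i, 1 ≤ φ j (x i) := fun i => hφ j _ (hx0 i)
  set Z : ℕ → G := fun l => ∑ i ∈ G' l, x i with hZ
  have hgood : ExF (Set.range fun m => ((q j : ℤ), r j + posG (φ j) Z m)) :=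
    hg j G' x hG1 (hG3 0) hx
  have hsum : ∀ l, φ j (Z l) = ∑ i ∈ G' l, φ j (x i) := fun l => by rw [hZ]; exact map_sum _ _ _
  have hsum1 : ∀ l, ((G' l).card : ℤ) ≤ ∑ i ∈ G' l, φ j (x i) := by
    intro l
    calc ((G' l).card : ℤ) = ∑ _i ∈ G' l, (1 : ℤ) := by simp
      _ ≤ _ := Finset.sum_le_sum fun i _ => hx1 i
  have hZ1 : ∀ l, 1 ≤ φ j (Z l) := by
    intro l
    rw [hsum]
    have h1 := hsum1 l
    have h2 : 1 ≤ (G' l).card := Finset.card_pos.2 (hG1.1 l)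
    have h3 : (1 : ℤ) ≤ (G' l).card := by exact_mod_cast h2
    linarith
  have hp : ∀ m ≤ k, posG (φ j) Z m = ∑ l ∈ Finset.range m, ∑ i ∈ F l, φ j (x i) := by
    intro m hm
    unfold posG
    refine Finset.sum_congr rfl fun l hl => ?_
    rw [hsum, hG2 l (by have := Finset.mem_range.1 hl; omega)]
  have hbig : ∀ m, k < m → (R : ℤ) < posG (φ j) Z m := by
    intro m hm
    have h1 : posG (φ j) Z (k + 1) ≤ posG (φ j) Z m := (posG_strictMono hZ1).monotone hm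
    have h2 : (0 : ℤ) ≤ posG (φ j) Z k := le_trans (Int.natCast_nonneg k) (le_posG hZ1 k)
    have h3 := hsum1 k
    have h4 : (R : ℤ) < (G' k).card := by exact_mod_cast hG4
    rw [posG_succ, hsum] at h1
    linarith
  have h1 := Pool.Agent.W68.Gap.window (hq j) (r := r j)
    (P := fun y => ∃ m, y = posG (φ j) Z m) (by
    have : {f : ℤ × ℤ | f.1 = (q j : ℤ) ∧ ∃ m, f.2 - r j = posG (φ j) Z m} =
        Set.range fun m => ((q j : ℤ), r j + posG (φ j) Z m) := by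
      ext f
      simp only [Set.mem_ofPred_eq, Set.mem_range]
      constructor
      · rintro ⟨h1, m, h2⟩
        refine ⟨m, ?_⟩
        ext
        · exact h1.symm
        · simp only
          linarith
      · rintro ⟨m, rfl⟩
        refine ⟨rfl, m, ?_⟩
        simp only
        ring
    rw [this]
    exact hgood) R
  refine h1.mono ?_
  rintro n ⟨hn1, hn2⟩
  refine ⟨hn1, fun y hy => ?_⟩
  rw [hn2 y hy]
  constructor
  · rintro ⟨m, rfl⟩
    by_cases hm : m ≤ k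
    · exact ⟨m, hm, hp m hm⟩
    · exfalso
      have h5 := hbig m (by omega)
      have h6 := le_abs_self (posG (φ j) Z m)
      linarith
  · rintro ⟨m, hm, h2⟩
    exact ⟨m, by rw [hp m hm]; exact h2⟩

end Pool.Agent.J6H10.PR
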