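import Pool.Agent.J6H10.PR.Closed
import Pool.Agent.W126.RecMain

/-!
# Record gaps attached to partition regular families
-/

set_option autoImplicit false

namespace Pool.Agent.J6H10.PR

open Filter Topology Pool.Agent.H752R3.MT Pool.Agent.W126.RecSum
open Pool.Agent.H256R2.SC (ff)

variable {G : Type} [AddCommMonoid G]

/-- forward vectors -/
def gF (H : ℝ → ℝ) (m q r k : ℕ) (φ : G →+ ℝ) (ρ : (Fin k → G) → ℝ) (Z : ℕ → G) : Prop :=
  (fun i : Fin m => ρ (fun l => Z l) * φ (Z (k + i))) ∈ LimH H m q r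

/-- reversed vectors -/
def gR (H : ℝ → ℝ) (m q r k : ℕ) (φ : G →+ ℝ) (ρ : (Fin k → G) → ℝ) (Z : ℕ → G) : Prop :=
  (fun i : Fin m => ρ (fun l => Z l) * φ (Z (k + (Fin.rev i : Fin m)))) ∈ LimH H m q r

theorem blk_single : Blk (fun i => ({i} : Finset ℕ)) := by
  refine ⟨fun i => Finset.singleton_nonempty i, fun i x hx y hy => ?_⟩
  rw [Finset.mem_singleton] at hx hy
  omega

theorem exFG {H : ℝ → ℝ} (hH : Scale H) (m : ℕ) {q r : ℕ} (hq : Squarefree q) (hr : r.Coprime q)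
    (k : ℕ) {φ : G →+ ℝ} {X : ℕ → G} (hX : ∀ i, 0 < φ (X i)) (hA : Adm H (fun i => φ (X i)))
    (ρ : (Fin k → G) → ℝ) (hρ : ∀ P, 0 < ρ P) :
    ∃ C : ℕ → Finset ℕ, Blk C ∧ gF H m q r k φ ρ (fun l => ∑ i ∈ C l, X i) := by
  obtain ⟨C, hC, -, hg⟩ := exF hH m hq hr k hX hA (fun P => ρ fun l => ∑ i ∈ P l, X i)
    (fun P => hρ _) _ blk_single
  refine ⟨C, hC, ?_⟩
  unfold goodF at hg
  unfold gF
  convert hg using 1
  funext i
  rw [map_sum]
  rfl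

theorem exRG {H : ℝ → ℝ} (hH : Scale H) (m : ℕ) {q r : ℕ} (hq : Squarefree q) (hr : r.Coprime q)
    (k : ℕ) {φ : G →+ ℝ} {X : ℕ → G} (hX : ∀ i, 0 < φ (X i)) (hA : Adm H (fun i => φ (X i)))
    (ρ : (Fin k → G) → ℝ) (hρ : ∀ P, 0 < ρ P) :
    ∃ C : ℕ → Finset ℕ, Blk C ∧ gR H m q r k φ ρ (fun l => ∑ i ∈ C l, X i) := by
  obtain ⟨C, hC, -, hg⟩ := exR hH m hq hr k hX hA (fun P => ρ fun l => ∑ i ∈ P l, X i)
    (fun P => hρ _) _ blk_single
  refine ⟨C, hC, ?_⟩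
  unfold goodR at hg
  unfold gR
  convert hg using 1
  funext i
  rw [map_sum]
  rfl

theorem gF_congr {H : ℝ → ℝ} {m q r k : ℕ} {φ : G →+ ℝ} {ρ : (Fin k → G) → ℝ}
    {C C' : ℕ → G} (h : ∀ i < k + m, C' i = C i) (hg : gF H m q r k φ ρ C') :
    gF H m q r k φ ρ C := by
  unfold gF at hg ⊢
  have e1 : (fun l : Fin k => C' l) = fun l : Fin k => C l := funext fun l => h l (by omega)
  rw [e1] at hg
  convert hg using 1
  funext i
  rw [h (k + i) (by omega)]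

theorem gR_congr {H : ℝ → ℝ} {m q r k : ℕ} {φ : G →+ ℝ} {ρ : (Fin k → G) → ℝ}
    {C C' : ℕ → G} (h : ∀ i < k + m, C' i = C i) (hg : gR H m q r k φ ρ C') :
    gR H m q r k φ ρ C := by
  unfold gR at hg ⊢
  have e1 : (fun l : Fin k => C' l) = fun l : Fin k => C l := funext fun l => h l (by omega)
  rw [e1] at hg
  convert hg using 1
  funext i
  rw [h (k + (Fin.rev i : Fin m)) (by have := (Fin.rev i).2; omega)]

/-- the families -/
def faG (H : ℕ → ℝ → ℝ) (φ : ℕ → G →+ ℝ) (q r : ℕ → ℕ) (ρ : ℕ → ∀ k, (Fin k → G) → ℝ)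
    (s k m b : ℕ) (Z : ℕ → G) : Prop :=
  if b = 0 then gF (H s) m (q s) (r s) k (φ s) (ρ s k) Z
  else gR (H s) m (q s) (r s) k (φ s) (ρ s k) Z

/-- the families, enumerated -/
def fG (H : ℕ → ℝ → ℝ) (φ : ℕ → G →+ ℝ) (q r : ℕ → ℕ) (ρ : ℕ → ∀ k, (Fin k → G) → ℝ)
    (t : ℕ) (Z : ℕ → G) : Prop :=
  faG H φ q r ρ (Nat.unpair (Nat.unpair t).1).1 (Nat.unpair (Nat.unpair t).1).2
    (Nat.unpair (Nat.unpair t).2).1 (Nat.unpair (Nat.unpair t).2).2 Z

theorem fG_pair (H : ℕ → ℝ → ℝ) (φ : ℕ → G →+ ℝ) (q r : ℕ → ℕ)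
    (ρ : ℕ → ∀ k, (Fin k → G) → ℝ) (s k m b : ℕ) (Z : ℕ → G)
    (h : fG H φ q r ρ (Nat.pair (Nat.pair s k) (Nat.pair m b)) Z) : faG H φ q r ρ s k m b Z := by
  unfold fG at h
  rw [Nat.unpair_pair] at h
  simp only [] at h
  rw [Nat.unpair_pair, Nat.unpair_pair] at h
  exact h

/-- finite sequences of blocks extend -/
theorem extendB {F : ℕ → Finset ℕ} (t n : ℕ) (h1 : ∀ l < n, (F l).Nonempty)
    (h2 : ∀ l < n, ∀ i ∈ F l, t ≤ i) (h3 : ∀ l, l + 1 < n → ∀ i ∈ F l, ∀ i' ∈ F (l + 1), i < i') :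
    ∃ E : ℕ → Finset ℕ, Blk E ∧ (∀ l, ∀ i ∈ E l, t ≤ i) ∧ ∀ l < n, E l = F l := by
  classical
  set M : ℕ := t + 1 + ∑ l ∈ Finset.range n, ∑ i ∈ F l, i with hM
  have hM1 : ∀ l < n, ∀ i ∈ F l, i < M := by
    intro l hl i hi
    have a1 : i ≤ ∑ i ∈ F l, i :=
      Finset.single_le_sum (f := fun i => i) (fun _ _ => Nat.zero_le _) hi
    have a2 : ∑ i ∈ F l, i ≤ ∑ l ∈ Finset.range n, ∑ i ∈ F l, i :=
      Finset.single_le_sum (f := fun l => ∑ i ∈ F l, i) (fun _ _ => Nat.zero_le _)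
        (Finset.mem_range.2 hl)
    omega
  refine ⟨fun l => if l < n then F l else {M + l}, ⟨fun i => ?_, fun i x hx y hy => ?_⟩,
    fun l i hi => ?_, fun l hl => ?_⟩
  · beta_reduce
    split_ifs with h
    · exact h1 i h
    · exact Finset.singleton_nonempty _
  · beta_reduce at hx hy
    by_cases a : i + 1 < n
    · rw [if_pos (by omega)] at hx
      rw [if_pos a] at hy
      exact h3 i a x hx y hy
    · rw [if_neg a, Finset.mem_singleton] at hy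
      by_cases b : i < n
      · rw [if_pos b] at hx
        have := hM1 i b x hx
        omega
      · rw [if_neg b, Finset.mem_singleton] at hx
        omega
  · beta_reduce at hi
    split_ifs at hi with h
    · exact h2 l h i hi
    · rw [Finset.mem_singleton] at hi
      omega
  · beta_reduce
    rw [if_pos hl]

/-- **Record gaps and partition regular families.** -/
theorem main_recG {T : ℕ → Set G} (hT : Tails T) (𝓒 : ℕ → Set (Finset G))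
    (h𝓒 : ∀ i, Reg T (𝓒 i)) (φ : ℕ → G →+ ℝ) (hφ : ∀ s, ∀ x ∈ T 0, 0 < φ s x)
    (H : ℕ → ℝ → ℝ) (hH : ∀ s, Scale (H s))
    (hc : ∀ s, (∀ c : ℝ, 0 < c → ∀ᶠ x : ℝ in atTop, H s x ≤ c * ff x) ∨
      ((∃ C : ℝ, ∀ᶠ x : ℝ in atTop, H s x ≤ C * ff x) ∧
        ∃ D : ℕ → ℝ, Summable D ∧ ∀ᶠ i in atTop, ∀ x ∈ T i, φ s x ≤ D i))
    (q r : ℕ → ℕ) (hq : ∀ s, Squarefree (q s)) (hr : ∀ s, (r s).Coprime (q s))
    (ρ : ℕ → ∀ k, (Fin k → G) → ℝ) (hρ : ∀ s k P, 0 < ρ s k P) :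
    ∃ S : ℕ → Finset G, (∀ i, S i ∈ 𝓒 i) ∧ (∀ i, ∀ s ∈ S i, s ∈ T i) ∧
      ∀ s k m : ℕ, ∃ N : ℕ, ∀ (F : ℕ → Finset ℕ) (x : ℕ → G), (∀ i, x i ∈ S i) →
        (∀ l < k + m, (F l).Nonempty) → (∀ l < k + m, ∀ i ∈ F l, N ≤ i) →
        (∀ l, l + 1 < k + m → ∀ i ∈ F l, ∀ i' ∈ F (l + 1), i < i') →
        (fun i : Fin m => ρ s k (fun l => ∑ i' ∈ F l, x i') * ∑ i' ∈ F (k + i), φ s (x i')) ∈
            LimH (H s) m (q s) (r s) ∧
        (fun i : Fin m => ρ s k (fun l => ∑ i' ∈ F l, x i') *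
          ∑ i' ∈ F (k + (Fin.rev i : Fin m)), φ s (x i')) ∈ LimH (H s) m (q s) (r s) := by
  classical
  have hA : ∀ s, ∀ X : ℕ → G, (∀ i, X i ∈ T i) → Adm (H s) (fun i => φ s (X i)) := by
    intro s X hX
    rcases hc s with h | ⟨h, D, hD, hev⟩
    · exact Or.inl h
    · refine Or.inr ⟨h, ?_⟩
      refine Summable.of_norm_bounded_eventually_nat hD ?_
      filter_upwards [hev] with i hi
      rw [Real.norm_eq_abs, abs_of_pos (hφ s _ (hT.anti (Nat.zero_le i) (hX i)))]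
      exact hi _ (hX i)
  obtain ⟨S, hS1, hS2, hP⟩ := closed_sets hT 𝓒 h𝓒 (fG H φ q r ρ) (by
      intro t Z _ hg
      refine ⟨(Nat.unpair (Nat.unpair t).1).2 + (Nat.unpair (Nat.unpair t).2).1,
        fun Z' _ h hg' => hg ?_⟩
      unfold fG faG at hg' ⊢
      split_ifs at hg' ⊢ with hb
      · exact gF_congr h hg'
      · exact gR_congr h hg') (by
      intro t X hX _
      have hX0 : ∀ s i, 0 < φ s (X i) := fun s i => hφ s _ (hT.anti (Nat.zero_le i) (hX i))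
      unfold fG faG
      split_ifs with hb
      · exact exFG (hH _) _ (hq _) (hr _) _ (hX0 _) (hA _ X hX) _ (fun P => hρ _ _ P)
      · exact exRG (hH _) _ (hq _) (hr _) _ (hX0 _) (hA _ X hX) _ (fun P => hρ _ _ P))
  refine ⟨S, hS1, hS2, fun s k m => ?_⟩
  set c0 := Nat.pair (Nat.pair s k) (Nat.pair m 0) with hc0
  set c1 := Nat.pair (Nat.pair s k) (Nat.pair m 1) with hc1
  refine ⟨max c0 c1, fun F x hx h1 h2 h3 => ?_⟩
  obtain ⟨C, hC1, hC2, hC3⟩ := extendB (F := F) (max c0 c1) (k + m) h1 h2 h3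
  have hrho : ρ s k (fun l => ∑ i ∈ C l, x i) = ρ s k (fun l => ∑ i ∈ F l, x i) := by
    congr 1
    funext l
    rw [hC3 l (by omega)]
  constructor
  · have h4 := fG_pair _ _ _ _ _ s k m 0 _ (hP c0 C x hC1
      (fun i hi => (le_max_left _ _).trans (hC2 0 i hi)) hx)
    unfold faG at h4
    rw [if_pos rfl] at h4
    unfold gF at h4
    convert h4 using 1
    funext i
    rw [map_sum, hC3 (k + i) (by omega), ← hrho]
  · have h4 := fG_pair _ _ _ _ _ s k m 1 _ (hP c1 C x hC1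
      (fun i hi => (le_max_right _ _).trans (hC2 0 i hi)) hx)
    unfold faG at h4
    rw [if_neg one_ne_zero] at h4
    unfold gR at h4
    convert h4 using 1
    funext i
    rw [map_sum, hC3 (k + (Fin.rev i : Fin m)) (by have := (Fin.rev i).2; omega), ← hrho]

end Pool.Agent.J6H10.PR
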