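import Pool.Agent.N284.CS.Ideal

/-!
# Ultrafilters on a commutative semigroup and partition regular families of finite sets
-/

set_option autoImplicit false

namespace Pool.Agent.J6H10.PR

open Filter Topology

/-- addition as a semigroup operation -/
@[reducible] def gSemigroup (G : Type) [AddCommMonoid G] : Semigroup G where
  mul x y := x + y
  mul_assoc := add_assoc

attribute [local instance] gSemigroup Ultrafilter.mul Ultrafilter.semigroup

variable {G : Type} [AddCommMonoid G]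

theorem mem_mul (U V : Ultrafilter G) (s : Set G) : s ∈ U * V ↔ {x | {y | x + y ∈ s} ∈ V} ∈ U := by
  have h := Ultrafilter.eventually_mul U V (fun x => x ∈ s)
  exact h

/-- a decreasing sequence of nonempty sets, the tails -/
structure Tails (T : ℕ → Set G) : Prop where
  anti : Antitone T
  ne : ∀ n, (T n).Nonempty
  add : ∀ n, ∀ x ∈ T n, ∃ m, ∀ y ∈ T m, x + y ∈ T n

/-- the ultrafilters which contain all tails -/
def Ok (T : ℕ → Set G) (U : Ultrafilter G) : Prop := ∀ n, T n ∈ U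

theorem Ok.mul {T : ℕ → Set G} (hT : Tails T) {U V : Ultrafilter G} (hU : Ok T U) (hV : Ok T V) :
    Ok T (U * V) := by
  intro n
  rw [mem_mul]
  filter_upwards [hU n] with x hx
  obtain ⟨m, hm⟩ := hT.add n x hx
  filter_upwards [hV m] with y hy using hm y hy

theorem isClosed_Ok (T : ℕ → Set G) : IsClosed {U : Ultrafilter G | Ok T U} := by
  have h1 : {U : Ultrafilter G | Ok T U} = ⋂ n, {U | T n ∈ U} := by
    ext U
    simp only [Ok, Set.mem_ofPred_eq, Set.mem_iInter]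
  rw [h1]
  exact isClosed_iInter fun n => ultrafilter_isClosed_basic _

/-- an ultrafilter which contains the tails and avoids a given set -/
theorem ok_avoid {T : ℕ → Set G} (hT : Tails T) (B : Set G) (h : ∀ n, ¬ T n ⊆ B) :
    ∃ U : Ultrafilter G, Ok T U ∧ Bᶜ ∈ U := by
  have h1 : ∀ n, ∃ x, x ∈ T n ∧ x ∉ B := fun n => Set.not_subset.1 (h n)
  choose t ht1 ht2 using h1
  refine ⟨(hyperfilter ℕ).map t, fun n => ?_, ?_⟩
  · rw [Ultrafilter.mem_map]
    have h1 : {m : ℕ | n ≤ m} ∈ hyperfilter ℕ := by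
      apply mem_hyperfilter_of_finite_compl
      have : {m : ℕ | n ≤ m}ᶜ = Set.Iio n := by
        ext m; simp
      rw [this]
      exact Set.finite_Iio n
    filter_upwards [h1] with m hm
    exact hT.anti hm (ht1 m)
  · rw [Ultrafilter.mem_map]
    exact Filter.Eventually.of_forall ht2

/-- the family `𝓒` is invariant under translations inside `T 0`, and every finite colouring of a tail has
a monochromatic member of `𝓒` -/
structure Reg (T : ℕ → Set G) (𝓒 : Set (Finset G)) : Prop where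
  tr : ∀ S ∈ 𝓒, ∀ v : G, (∀ s ∈ S, v + s ∈ T 0) → ∃ S' ∈ 𝓒, ∀ s', s' ∈ S' ↔ ∃ s ∈ S, s' = v + s
  pr : ∀ (n k : ℕ) (χ : G → Fin k), ∃ S ∈ 𝓒, (∀ s ∈ S, s ∈ T n) ∧ ∀ s ∈ S, ∀ s' ∈ S, χ s = χ s'

/-- an idempotent ultrafilter all whose members contain members of all regular families -/
theorem exists_q {T : ℕ → Set G} (hT : Tails T) : ∃ q : Ultrafilter G, Ok T q ∧ q * q = q ∧
    ∀ 𝓒 : Set (Finset G), Reg T 𝓒 → ∀ A ∈ q, ∃ S ∈ 𝓒, ∀ s ∈ S, s ∈ A := by
  classical
  let MC := {U : Ultrafilter G // Ok T U}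
  letI : Semigroup MC :=
    { mul := fun U V => ⟨U.1 * V.1, U.2.mul hT V.2⟩
      mul_assoc := fun U V Z => Subtype.ext (mul_assoc U.1 V.1 Z.1) }
  have mc_mul : ∀ U V : MC, (U * V).1 = U.1 * V.1 := fun U V => rfl
  have hcpt : IsCompact {U : Ultrafilter G | Ok T U} := (isClosed_Ok T).isCompact
  haveI hcomp : CompactSpace MC := isCompact_iff_compactSpace.1 hcpt
  obtain ⟨U0, hU0, -⟩ := ok_avoid hT ∅ (fun n hn => by
    obtain ⟨x, hx⟩ := hT.ne n
    exact hn hx)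
  haveI hne : Nonempty MC := ⟨⟨U0, hU0⟩⟩
  have hcont : ∀ r : MC, Continuous (fun x : MC => x * r) := fun r =>
    ((Ultrafilter.continuous_mul_left r.1).comp continuous_subtype_val).subtype_mk _
  obtain ⟨L, hLn, hLc, hLi, hLm⟩ := Pool.Agent.N284.CS.t_ideal MC hcont
  obtain ⟨q, hqL, hqq⟩ := exists_idempotent_in_compact_subsemigroup hcont L hLn hLc.isCompact
    (fun x _ y hy => hLi x y hy)
  refine ⟨q.1, q.2, congrArg Subtype.val hqq, fun 𝓒 h𝓒 A hA => ?_⟩
  have hA' : A ∩ T 0 ∈ q.1 := inter_mem hA (q.2 0)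
  set B : G → Set G := fun x => {w | {y | x + (w + y) ∈ A ∩ T 0} ∈ q.1} with hB
  have hcov : ∀ r : Ultrafilter G, Ok T r → ∃ x, B x ∈ r := by
    intro r hr
    obtain ⟨z, hz⟩ := hLm ((⟨r, hr⟩ : MC) * q) (hLi _ _ hqL) q hqL
    have h1 : q.1 = z.1 * (r * q.1) := congrArg Subtype.val hz
    rw [h1, mem_mul] at hA'
    obtain ⟨x, hx⟩ := Ultrafilter.nonempty_of_mem hA'
    refine ⟨x, ?_⟩
    have hx' : {y | x + y ∈ A ∩ T 0} ∈ r * q.1 := hx
    rw [mem_mul] at hx'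
    exact hx'
  obtain ⟨F, hF⟩ := hcpt.elim_finite_subcover (fun x : G => {r : Ultrafilter G | B x ∈ r})
    (fun x => ultrafilter_isOpen_basic _) (fun r hr => by
      obtain ⟨x, hx⟩ := hcov r hr
      exact Set.mem_iUnion.2 ⟨x, hx⟩)
  obtain ⟨n, hn⟩ : ∃ n, T n ⊆ ⋃ x ∈ F, B x := by
    by_contra hcon
    push Not at hcon
    obtain ⟨U, hU, hUB⟩ := ok_avoid hT (⋃ x ∈ F, B x) hcon
    obtain ⟨x, hx⟩ := Set.mem_iUnion.1 (hF hU)
    obtain ⟨hxF, hx2⟩ := Set.mem_iUnion.1 hx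
    have hx3 : B x ∈ U := hx2
    obtain ⟨w, hw1, hw2⟩ := Ultrafilter.nonempty_of_mem (inter_mem hx3 hUB)
    exact hw2 (Set.mem_biUnion (show x ∈ (F : Set G) from hxF) hw1)
  have hn' : ∀ w ∈ T n, ∃ x ∈ F, w ∈ B x := by
    intro w hw
    have := hn hw
    simpa only [Set.mem_iUnion, exists_prop] using this
  obtain ⟨w0, hw0⟩ := hT.ne n
  obtain ⟨x0, hx0, -⟩ := hn' w0 hw0
  have hFc : 0 < F.card := Finset.card_pos.2 ⟨x0, hx0⟩
  set e := F.equivFin with he
  obtain ⟨S, hS, hSn, hSc⟩ := h𝓒.pr n F.card (fun w => if h : ∃ x ∈ F, w ∈ B x then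
    e ⟨h.choose, h.choose_spec.1⟩ else ⟨0, hFc⟩)
  by_cases hSe : S = ∅
  · exact ⟨S, hS, fun s hs => by rw [hSe] at hs; exact absurd hs (Finset.notMem_empty s)⟩
  obtain ⟨s0, hs0⟩ := Finset.nonempty_iff_ne_empty.2 hSe
  obtain ⟨x, hx, hxS⟩ : ∃ x ∈ F, ∀ s ∈ S, s ∈ B x := by
    have h0 := hn' s0 (hSn s0 hs0)
    refine ⟨h0.choose, h0.choose_spec.1, fun s hs => ?_⟩
    have h1 := hn' s (hSn s hs)
    have h2 := hSc s hs s0 hs0
    rw [dif_pos h1, dif_pos h0] at h2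
    have h3 := congrArg Subtype.val (e.injective h2)
    simp only at h3
    rw [← h3]
    exact h1.choose_spec.2
  have h4 : (⋂ s ∈ (S : Set G), {y | x + (s + y) ∈ A ∩ T 0}) ∈ q.1 := by
    rw [← Ultrafilter.mem_coe, Filter.biInter_mem S.finite_toSet]
    exact fun s hs => hxS s hs
  obtain ⟨y, hy⟩ := Ultrafilter.nonempty_of_mem h4
  have hy' : ∀ s ∈ S, x + y + s ∈ A ∩ T 0 := by
    intro s hs
    have h5 : x + (s + y) ∈ A ∩ T 0 := Set.mem_iInter₂.1 hy s hs
    rwa [add_comm s y, ← add_assoc] at h5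
  obtain ⟨S', hS', hSS⟩ := h𝓒.tr S hS (x + y) (fun s hs => (hy' s hs).2)
  refine ⟨S', hS', fun s' hs' => ?_⟩
  obtain ⟨s, hs, rfl⟩ := (hSS s').1 hs'
  exact (hy' s hs).1

end Pool.Agent.J6H10.PR
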